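import Mathlib
import Pool.Agent.H481Z.CDefs
import Pool.Agent.H481Z.CLp

set_option autoImplicit false

namespace Pool.Agent.Results.MP_0f7a95_an.NotDense

open scoped ENNReal
open Pool.Agent.H481Z.CC

/-- Over the real or the complex scalars and for every `1 ≤ p < ∞` (so also on the Hilbert space
`ℓ²`), the Banach space `ℓ^p(ℕ)` carries a bounded linear operator `T` that has a convex-cyclic
vector, but whose set of convex-cyclic vectors is not dense. -/
theorem result (𝕜 : Type) [RCLike 𝕜] (p : ℝ≥0∞) [Fact (1 ≤ p)] (hp : p ≠ ⊤) :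
    ∃ T : lp (fun _ : ℕ => 𝕜) p →L[𝕜] lp (fun _ : ℕ => 𝕜) p,
      (convexCyclicVectors T).Nonempty ∧ ¬ Dense (convexCyclicVectors T) :=
  lp_example hp

end Pool.Agent.Results.MP_0f7a95_an.NotDense
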